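import Pool.Agent.Helper15.TS.St

/-!
Project TS, module CLB: claim B.
-/

set_option autoImplicit false

namespace Pool.Agent.Helper8.TS

open Pool.Agent.Helper22.FL Pool.Agent.Helper22.CS Pool.Agent.Helper15.TS

variable {n : ℕ}

theorem mem_letters (p : Fin n → ℕ) (i : Fin n) : i ∈ letters p ↔ p i ≠ 0 := by
  simp [letters]

/-- a combination of `P` has its `ℚ`-version in the span -/
theorem toQ_mem (P : Finset (Fin n → ℕ)) (t : (Fin n → ℕ) → ℕ) :
    toQ (∑ p ∈ P, t p • p) ∈ spQ P := by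
  have h : toQ (∑ p ∈ P, t p • p) = ∑ p ∈ P, (t p : ℚ) • toQ p := by
    funext i
    simp [toQ, Finset.sum_apply]
  rw [h]
  refine Submodule.sum_mem _ fun p hp => Submodule.smul_mem _ _ (Submodule.subset_span ?_)
  exact ⟨p, hp, rfl⟩

/-- part (a): `e + N v ∈ lin x P` for large `N` -/
theorem partA (I : Finset (Fin n)) (P : Finset (Fin n → ℕ)) (α : Fin n → ℤ)
    (hH : IsHyp I P α) (x e : Fin n → ℕ) (d : ℕ) (hd : 1 ≤ d) (hMod : IsMod P d)
    (h1 : ∀ i, i ∉ I → e i = x i) (h2 : ∀ i, (d : ℤ) ∣ (e i : ℤ) - x i)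
    (h3 : ∑ i, α i * ((e i : ℤ) - x i) = 0) (t : (Fin n → ℕ) → ℕ) (ht : ∀ p, 1 ≤ t p) :
    ∃ N1 : ℕ, ∀ N : ℕ, N1 ≤ N → e + N • (∑ p ∈ P, t p • p) ∈ lin x P := by
  classical
  choose z hz using h2
  have hd0 : (d : ℤ) ≠ 0 := by
    have : (1 : ℤ) ≤ d := by exact_mod_cast hd
    omega
  have hz0 : ∀ i, i ∉ I → z i = 0 := by
    intro i hi
    have := hz i
    rw [h1 i hi, sub_self] at this
    rcases mul_eq_zero.mp this.symm with h | h
    · exact absurd h hd0
    · exact h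
  have hzα : ∑ i, α i * z i = 0 := by
    have h4 : (d : ℤ) * ∑ i, α i * z i = 0 := by
      rw [Finset.mul_sum, ← h3]
      refine Finset.sum_congr rfl fun i _ => ?_
      rw [hz i]; ring
    rcases mul_eq_zero.mp h4 with h | h
    · exact absurd h hd0
    · exact h
  have hsp : (fun i => (z i : ℚ)) ∈ spQ P := by
    rw [hH.2.2.2 (fun i => (z i : ℚ)) (fun i hi => by simp [hz0 i hi])]
    have h5 : ((∑ i, α i * z i : ℤ) : ℚ) = 0 := by rw [hzα]; simp
    push_cast at h5
    exact h5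
  obtain ⟨m, hm⟩ := hMod z hsp
  refine ⟨∑ p ∈ P, (m p).natAbs, fun N hN => ?_⟩
  have hnn : ∀ p ∈ P, 0 ≤ m p + N * t p := by
    intro p hp
    have h6 : (m p).natAbs ≤ ∑ p ∈ P, (m p).natAbs :=
      Finset.single_le_sum (f := fun p => (m p).natAbs) (fun _ _ => Nat.zero_le _) hp
    have h7 : N ≤ N * t p := Nat.le_mul_of_pos_right _ (ht p)
    have h8 : (N : ℤ) ≤ N * t p := by exact_mod_cast h7
    omega
  refine ⟨fun p => (m p + N * t p).toNat, ?_⟩
  funext i
  have key : ((e + N • (∑ p ∈ P, t p • p)) i : ℤ) =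
      ((x + ∑ p ∈ P, (m p + N * t p).toNat • p) i : ℤ) := by
    simp only [Pi.add_apply, Pi.smul_apply, Finset.sum_apply, smul_eq_mul]
    push_cast
    have h9 : (e i : ℤ) = x i + ∑ p ∈ P, m p * (p i : ℤ) := by
      rw [← hm i, ← hz i]; ring
    rw [h9, Finset.mul_sum, add_assoc, ← Finset.sum_add_distrib]
    congr 1
    refine Finset.sum_congr rfl fun p hp => ?_
    rw [Int.toNat_of_nonneg (hnn p hp)]
    ring
  exact_mod_cast key

/-- sums over three indices -/
theorem comb3 (κ : Fin 3 → ℕ) (q : Fin 3 → Fin n → ℕ) (i : Fin n) :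
    (∑ j, κ j • q j) i = κ 0 * q 0 i + κ 1 * q 1 i + κ 2 * q 2 i := by
  simp [Fin.sum_univ_three, Finset.sum_apply]

theorem stclb (hPMP : StPMP) (hDIR : StDIR) (hDEEP : StDEEP) (hCLS : StCLS) : StCLB := by
  classical
  intro n S R hS hR hSlim hT I P α x d hI hH hxP hd hMod
  by_contra hcon
  push Not at hcon
  have hC := hCLS n I x d α
  have hY := hC.sdiff hS
  obtain ⟨e, w, hw1, hew⟩ := hDEEP n _ hY I (fun B => by
    obtain ⟨y, h1, h2, h3, h4, h5⟩ := hcon B
    exact ⟨y, ⟨⟨h1, h2, h3⟩, h5⟩, h4⟩)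
  have hwS : ∀ τ : ℕ, e + τ • w ∉ S := fun τ => (hew τ).2
  have he : (∀ i, i ∉ I → e i = x i) ∧ (∀ i, (d : ℤ) ∣ (e i : ℤ) - x i) ∧
      ∑ i, α i * ((e i : ℤ) - x i) = 0 := by
    have := (hew 0).1
    simpa using this
  have he1 : (∀ i, i ∉ I → e i + w i = x i) ∧
      ∑ i, α i * (((e i : ℤ) + w i) - x i) = 0 := by
    have h := (hew 1).1
    refine ⟨fun i hi => ?_, ?_⟩
    · have := h.1 i hi
      simpa using this
    · have := h.2.2
      simpa using this
  have hw0 : ∀ i, i ∉ I → w i = 0 := by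
    intro i hi
    have := he.1 i hi
    have := he1.1 i hi
    omega
  have hwα : ∑ i, α i * (w i : ℤ) = 0 := by
    have h1 := he1.2
    have h2 := he.2.2
    have h3 : ∑ i, α i * (((e i : ℤ) + w i) - x i) =
        ∑ i, α i * ((e i : ℤ) - x i) + ∑ i, α i * (w i : ℤ) := by
      rw [← Finset.sum_add_distrib]
      refine Finset.sum_congr rfl fun i _ => ?_
      ring
    rw [h1, h2] at h3
    linarith
  obtain ⟨t, ht1, hdir⟩ := hDIR n S R hR hSlim I P α hI hH
  obtain ⟨N1, hN1⟩ := partA I P α hH x e d hd hMod he.1 he.2.1 he.2.2 t ht1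
  generalize hv : (∑ p ∈ P, t p • p) = v at hdir hN1
  have hvi : ∀ i, v i = ∑ p ∈ P, t p * p i := by
    intro i
    rw [← hv]
    simp [Finset.sum_apply]
  have hv1 : ∀ i ∈ I, 1 ≤ v i := by
    intro i hi
    have h1 : i ∈ lettersOf P := by rw [hH.2.1]; exact hi
    unfold lettersOf at h1
    rw [Finset.mem_biUnion] at h1
    obtain ⟨p, hp, hpi⟩ := h1
    rw [mem_letters] at hpi
    rw [hvi i]
    have h2 : t p * p i ≤ ∑ p ∈ P, t p * p i :=
      Finset.single_le_sum (f := fun p : Fin n → ℕ => t p * p i) (fun _ _ => Nat.zero_le _) hp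
    have h3 : 1 ≤ t p * p i := Nat.one_le_iff_ne_zero.mpr
      (mul_ne_zero (by have := ht1 p; omega) hpi)
    omega
  have hv0 : ∀ i, i ∉ I → v i = 0 := by
    intro i hi
    rw [hvi i]
    refine Finset.sum_eq_zero fun p hp => ?_
    have h1 : i ∉ letters p := fun h => hi (hH.1 p hp h)
    rw [mem_letters, not_not] at h1
    rw [h1, mul_zero]
  have hvα : ∑ i, α i * (v i : ℤ) = 0 := by
    have h1 : toQ v ∈ spQ P := by rw [← hv]; exact toQ_mem P t
    rw [hH.2.2.2 (toQ v) (fun i hi => by simp [toQ, hv0 i hi])] at h1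
    have h2 : ((∑ i, α i * (v i : ℤ) : ℤ) : ℚ) = 0 := by
      push_cast
      exact h1
    exact_mod_cast h2
  obtain ⟨i0, hi0, hα0⟩ := hH.2.2.1
  -- the constants
  obtain ⟨A, hA2, hAw⟩ : ∃ A : ℕ, 2 ≤ A ∧ ∀ i, w i + 2 ≤ A :=
    ⟨2 + ∑ i, w i, by omega, fun i => by
      have : w i ≤ ∑ i, w i := Finset.single_le_sum (f := fun i => w i)
        (fun _ _ => Nat.zero_le _) (Finset.mem_univ i)
      omega⟩
  obtain ⟨B, hB2, hBv⟩ : ∃ B : ℕ, 2 ≤ B ∧ ∀ i, v i + 2 ≤ B :=
    ⟨2 + ∑ i, v i, by omega, fun i => by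
      have : v i ≤ ∑ i, v i := Finset.single_le_sum (f := fun i => v i)
        (fun _ _ => Nat.zero_le _) (Finset.mem_univ i)
      omega⟩
  obtain ⟨D, hD⟩ : ∃ D : ℕ, A * B = D + 1 := ⟨A * B - 1, by
    have : 1 ≤ A * B := Nat.one_le_iff_ne_zero.mpr (mul_ne_zero (by omega) (by omega))
    omega⟩
  have hD1 : 1 ≤ D := by
    have : 2 * 2 ≤ A * B := Nat.mul_le_mul hA2 hB2
    omega
  have hDz : (A : ℤ) * B = D + 1 := by exact_mod_cast hD
  -- the vectors `q`
  have hAv : ∀ i ∈ I, w i + 2 ≤ A * v i := fun i hi =>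
    (hAw i).trans (Nat.le_mul_of_pos_right _ (hv1 i hi))
  have hBw : ∀ i ∈ I, v i + 2 ≤ B * w i := fun i hi =>
    (hBv i).trans (Nat.le_mul_of_pos_right _ (hw1 i hi))
  obtain ⟨g, hg0, hg1, hgI, hgα⟩ : ∃ g : Fin n → ℕ, g i0 = 1 ∧ (∀ i, g i ≤ 1) ∧
      (∀ i, i ∉ I → g i = 0) ∧ ∑ i, α i * (g i : ℤ) = α i0 := by
    refine ⟨Pi.single i0 1, by simp, fun i => ?_, fun i hi => ?_, ?_⟩
    · by_cases h : i = i0
      · rw [h]; simp
      · rw [Pi.single_eq_of_ne h]; omega
    · have h : i ≠ i0 := fun h => hi (h ▸ hi0)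
      rw [Pi.single_eq_of_ne h]
    · rw [Finset.sum_eq_single i0]
      · simp
      · intro i _ h
        rw [Pi.single_eq_of_ne h]; simp
      · intro h; exact absurd (Finset.mem_univ _) h
  obtain ⟨q, hq0, hq1, hq2⟩ : ∃ q : Fin 3 → Fin n → ℕ,
      (∀ i, (q 0 i : ℤ) = A * v i - w i) ∧ (∀ i, (q 1 i : ℤ) = B * w i - v i + g i) ∧
      (∀ i, (q 2 i : ℤ) = B * w i - v i - g i) := by
    refine ⟨![fun i => A * v i - w i, fun i => B * w i - v i + g i,
      fun i => B * w i - v i - g i], fun i => ?_, fun i => ?_, fun i => ?_⟩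
    · by_cases hi : i ∈ I
      · have := hAv i hi
        simp only [Matrix.cons_val_zero]
        rw [Nat.cast_sub (by omega)]
        push_cast; ring
      · simp [hv0 i hi, hw0 i hi]
    · by_cases hi : i ∈ I
      · have := hBw i hi
        have h3 : ((B * w i - v i + g i : ℕ) : ℤ) = B * w i - v i + g i := by
          rw [Nat.cast_add, Nat.cast_sub (by omega)]
          push_cast; ring
        exact h3
      · simp [hv0 i hi, hw0 i hi, hgI i hi]
    · by_cases hi : i ∈ I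
      · have h1 := hBw i hi
        have h2 := hg1 i
        have h3 : ((B * w i - v i - g i : ℕ) : ℤ) = B * w i - v i - g i := by
          rw [Nat.cast_sub (by omega), Nat.cast_sub (by omega)]
          push_cast; ring
        simpa using h3
      · simp [hv0 i hi, hw0 i hi, hgI i hi]
  have hqI : ∀ j i, i ∉ I → q j i = 0 := by
    intro j i hi
    have h0 := hq0 i
    have h1 := hq1 i
    have h2 := hq2 i
    rw [hv0 i hi, hw0 i hi] at h0 h1 h2
    rw [hgI i hi] at h1 h2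
    fin_cases j
    · have : (q 0 i : ℤ) = 0 := by rw [h0]; simp
      exact_mod_cast this
    · have : (q 1 i : ℤ) = 0 := by rw [h1]; simp
      exact_mod_cast this
    · have : (q 2 i : ℤ) = 0 := by rw [h2]; simp
      exact_mod_cast this
  have hqne : ∀ j, q j ≠ 0 := by
    intro j hj
    have hji : q j i0 = 0 := by rw [hj]; rfl
    have h0 := hq0 i0
    have h1 := hq1 i0
    have h2 := hq2 i0
    have hA' : ((w i0 : ℤ) + 2 ≤ A * v i0) := by exact_mod_cast hAv i0 hi0
    have hB' : ((v i0 : ℤ) + 2 ≤ B * w i0) := by exact_mod_cast hBw i0 hi0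
    rw [hg0] at h1 h2
    fin_cases j
    · have h3 : q 0 i0 = 0 := hji
      rw [h3] at h0
      push_cast at h0
      linarith
    · have h3 : q 1 i0 = 0 := hji
      rw [h3] at h1
      push_cast at h1
      linarith
    · have h3 : q 2 i0 = 0 := hji
      rw [h3] at h2
      push_cast at h2
      linarith
  -- the two special combinations
  have hcomA : ∀ l : ℕ, e + ∑ j, (![2 * l * B, l, l] : Fin 3 → ℕ) j • q j = e + (2 * l * D) • v := by
    intro l
    congr 1
    funext i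
    have h : (((∑ j, (![2 * l * B, l, l] : Fin 3 → ℕ) j • q j) i : ℕ) : ℤ) =
        (((2 * l * D) • v) i : ℕ) := by
      rw [comb3]
      simp only [Matrix.cons_val_zero, Matrix.cons_val_one, Matrix.cons_val_two,
        Matrix.tail_cons, Matrix.head_cons, Pi.smul_apply, smul_eq_mul, Matrix.cons_val]
      push_cast
      rw [hq0, hq1, hq2]
      linear_combination (2 * l * v i : ℤ) * hDz
    exact_mod_cast h
  have hcomB : ∀ l : ℕ, ∀ κ : Fin 3 → ℕ, κ 0 = 2 * l * B → κ 1 = l * (D + 1) → κ 2 = l * (D + 1) →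
      e + ∑ j, κ j • q j = e + (2 * l * B * D) • w := by
    intro l κ h0 h1 h2
    congr 1
    funext i
    have h : (((∑ j, κ j • q j) i : ℕ) : ℤ) = (((2 * l * B * D) • w) i : ℕ) := by
      rw [comb3, h0, h1, h2]
      simp only [Pi.smul_apply, smul_eq_mul]
      push_cast
      rw [hq0, hq1, hq2]
      linear_combination (2 * l * v i : ℤ) * hDz
    exact_mod_cast h
  obtain ⟨K, hK1, hK⟩ := hPMP n S hT e q hqne
  have hfac : 1 ≤ K.factorial := Nat.factorial_pos K
  have hl : ∀ s : ℕ, K + N1 ≤ K.factorial * (s + K + N1) := fun s =>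
    (by omega : K + N1 ≤ s + K + N1).trans (Nat.le_mul_of_pos_left _ hfac)
  have hlin : ∀ s : ℕ, e + ∑ j, (![2 * (K.factorial * (s + K + N1)) * B,
      K.factorial * (s + K + N1), K.factorial * (s + K + N1)] : Fin 3 → ℕ) j • q j ∈ S := by
    intro s
    rw [hcomA]
    refine hxP (hN1 _ ?_)
    have h1 := hl s
    have h2 : K.factorial * (s + K + N1) ≤ 2 * (K.factorial * (s + K + N1)) * D := by
      calc K.factorial * (s + K + N1) ≤ 2 * (K.factorial * (s + K + N1)) := by omega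
        _ ≤ 2 * (K.factorial * (s + K + N1)) * D := Nat.le_mul_of_pos_right _ hD1
    omega
  have hP := fun s : ℕ => hK _ (hlin s) (by
    have := hl s
    change K ≤ K.factorial * (s + K + N1)
    omega)
  choose ρ hρ1 hρK hρ0 hρS using hP
  have hmem : ∀ s i : ℕ, e + (2 * (K.factorial * (s + K + N1)) * D) • v +
      i • (∑ j, ρ s j • q j) ∈ S := by
    intro s i
    have h1 := hρS s i
    have h2 : e + (2 * (K.factorial * (s + K + N1)) * D) • v + i • (∑ j, ρ s j • q j) =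
        e + ∑ j, ((![2 * (K.factorial * (s + K + N1)) * B,
      K.factorial * (s + K + N1), K.factorial * (s + K + N1)] : Fin 3 → ℕ) j + i * ρ s j) • q j := by
      rw [← hcomA, add_assoc, Finset.smul_sum, ← Finset.sum_add_distrib]
      congr 1
      refine Finset.sum_congr rfl fun j _ => ?_
      rw [add_smul, mul_smul]
    rw [h2]
    exact h1
  have hmono : StrictMono (fun s : ℕ => 2 * (K.factorial * (s + K + N1)) * D) := by
    intro s s' hss
    have h1 : K.factorial * (s + K + N1) < K.factorial * (s' + K + N1) :=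
      Nat.mul_lt_mul_of_pos_left (by omega) hfac
    exact Nat.mul_lt_mul_of_pos_right (by omega) hD1
  have hlet : ∀ s, letters (∑ j, ρ s j • q j) ⊆ I := by
    intro s i hi
    by_contra hiI
    rw [mem_letters] at hi
    apply hi
    rw [comb3, hqI 0 i hiI, hqI 1 i hiI, hqI 2 i hiI]
    simp
  obtain ⟨s, hs⟩ := hdir e (fun s : ℕ => 2 * (K.factorial * (s + K + N1)) * D)
    (fun s => ∑ j, ρ s j • q j) hmono hlet hmem
  have hs2 : ∑ i, α i * (((∑ j, ρ s j • q j) i : ℕ) : ℤ) = ((ρ s 1 : ℤ) - ρ s 2) * α i0 := by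
    have h1 : ∀ i, α i * (((∑ j, ρ s j • q j) i : ℕ) : ℤ) =
        ((ρ s 0 : ℤ) * A - ρ s 1 - ρ s 2) * (α i * (v i : ℤ)) +
        ((ρ s 1 : ℤ) * B + ρ s 2 * B - ρ s 0) * (α i * (w i : ℤ)) +
        ((ρ s 1 : ℤ) - ρ s 2) * (α i * (g i : ℤ)) := by
      intro i
      rw [comb3]
      push_cast
      rw [hq0, hq1, hq2]
      ring
    rw [Finset.sum_congr rfl fun i _ => h1 i, Finset.sum_add_distrib, Finset.sum_add_distrib,
      ← Finset.mul_sum, ← Finset.mul_sum, ← Finset.mul_sum, hvα, hwα, hgα]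
    ring
  rw [hs2] at hs
  have hρ12 : ρ s 1 = ρ s 2 := by
    rcases mul_eq_zero.mp hs with h | h
    · have : (ρ s 1 : ℤ) = ρ s 2 := by linarith
      exact_mod_cast this
    · exact absurd h hα0
  have h1 := hρ1 s
  have hρz : ρ s 0 = 0 := by
    rcases hρ0 s with h | h
    · exact h
    · omega
  have hdvd : ρ s 1 ∣ K.factorial * (s + K + N1) :=
    (Nat.dvd_factorial h1 (hρK s)).mul_right _
  obtain ⟨c, hc⟩ := hdvd
  have hfin := hρS s (c * D)
  rw [hcomB (K.factorial * (s + K + N1)) _ ?_ ?_ ?_] at hfin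
  · exact hwS _ hfin
  · simp [hρz]
  · change K.factorial * (s + K + N1) + c * D * ρ s 1 = K.factorial * (s + K + N1) * (D + 1)
    rw [hc]
    ring
  · change K.factorial * (s + K + N1) + c * D * ρ s 2 = K.factorial * (s + K + N1) * (D + 1)
    rw [← hρ12, hc]
    ring

end Pool.Agent.Helper8.TS
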