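import Pool.Agent.Helper12.TS.StB

set_option autoImplicit false

/-! Project TS, module SMA: case alpha, the component `A` has at most seven vertices. -/

namespace Pool.Agent.Helper8.TS

open Pool.Agent.Helper12.TS
open Pool.Agent.Helper51.AJ (IsMinor Planar Apex ExMinor Con Tch)
open Pool.Agent.Helper12.NK (rst Kc add)

/-- Module SMA. -/
theorem hSMA (hQUO : StQUO) (_hCMP : StCMP) (hMDQ : StMDQ) (hREF : StREF) (hAPM : StAPM)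
    (hAPU : StAPU) (hAPB : StAPB) (hAPC : StAPC) (hACH : StACH) : StSMA := by
  intro V _ G S A B s hM hK hS3 hA hB hAB hs h2 hB2 hStA hStB
  obtain ⟨ι, _, Γ, φ, ρ₀, hMdl, hTch⟩ := hAPM V G S A s hK hS3 hA hs hStA
  have hT2 : (S \ {s}).ncard = 2 := by
    rw [Set.ncard_sdiff_singleton_of_mem hs]
    omega
  have hTne : (S \ {s}).Nonempty := by
    rw [← Set.ncard_pos (Set.toFinite _)]
    omega
  have hdis : Disjoint A (S \ {s}) := hA.1.mono_right Set.sdiff_subset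
  have hUu₀ : Uu G A (S \ {s}) ρ₀ := hAPU V ι G A (S \ {s}) Γ φ ρ₀ hdis hT2 hMdl hTch
  obtain ⟨hnp₀, hc₀, -⟩ :=
    hMDQ V ι G (cl (S \ {s})) A (S \ {s}) Γ φ ρ₀ hdis hTne le_rfl hMdl
  have hR₀ := hMdl.rtr
  obtain ⟨ρ₁, hR₁, hUu₁, hf₁, hc₁, hx₁⟩ : ∃ ρ₁ : V → V, Rtr G A (S \ {s}) ρ₁ ∧
      Uu G A (S \ {s}) ρ₁ ∧ (∀ x y, ρ₁ x = ρ₁ y → ρ₀ x = ρ₀ y) ∧ (Rr A ρ₁).ncard ≤ 6 ∧
      ∀ t ∈ S \ {s}, ∃ x ∈ A, G.Adj s x ∧ ρ₁ x ≠ t := by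
    by_cases h : ∃ t ∈ S, t ≠ s ∧ ∀ x ∈ A, G.Adj s x → ρ₀ x = t
    · obtain ⟨t, ht, hts, hall⟩ := h
      obtain ⟨ρ₁, h1, h3, h4, h5, x, hx, hsx⟩ :=
        hAPB V G S A s t ρ₀ hK hS3 hA hs ht hts hR₀ hUu₀ hall
      refine ⟨ρ₁, h1, h3, h4, by omega, fun t' ht' => ⟨x, hx.1, hsx, ?_⟩⟩
      intro he
      exact Set.disjoint_left.1 hdis hx.2 (he ▸ ht')
    · refine ⟨ρ₀, hR₀, hUu₀, fun _ _ h => h, by omega, fun t ht => ?_⟩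
      by_contra hcon
      apply h
      refine ⟨t, ht.1, fun he => ht.2 he, fun x hx hsx => ?_⟩
      by_contra hne
      exact hcon ⟨x, hx, hsx, hne⟩
  obtain ⟨ρ', hR', hf', hc', hl1, hl2⟩ :=
    hAPC V G S A s ρ₁ hK hS3 hA hs hR₁ hUu₁ h2 hx₁
  have hnp' : ¬ Planar (rst (quo G Set.univ ρ') (Rr A ρ' ∪ S \ {s}) ⊔ cl (S \ {s})) := by
    intro hp
    exact hnp₀ (hREF V G (cl (S \ {s})) A (S \ {s}) ρ₀ ρ' hdis le_rfl hR₀ hR'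
      (fun x y h => hf₁ x y (hf' x y h)) hp)
  have hfin := hACH V G S A B s ρ' hK hS3 hA hB hAB hs hB2 hStB hR' hnp' hl1 hl2
  by_contra hcon
  obtain ⟨-, -, -, -, h5, -⟩ := hQUO V G Set.univ ρ'
  obtain ⟨x, y, hxy, he⟩ := h5 A (S \ {s}) hR' (by omega)
  obtain ⟨v, hv⟩ := hM.2 G Set.univ ρ' le_rfl (fun x _ => by
    have := hR'.fib x
    have e : {z | z ∈ (Set.univ : Set V) ∧ ρ' z = ρ' x} = {z | ρ' z = ρ' x} := by
      ext z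
      simp
    rw [e]
    exact this) ⟨x, y, hxy, fun h => h.2.2.2 he⟩
  exact hfin v hv

end Pool.Agent.Helper8.TS
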